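import Pool.Agent.H643R2.EX.Alph

/-!
Generalised regular expressions in which the star is only applied to (expressions denoting) codes
with finite deciphering delay in both directions: over every finite alphabet with at least two
letters these expressions denote all regular languages, and their star height hierarchy is
infinite, with every level attained.
-/

set_option autoImplicit false

namespace Pool.Agent.Results.MP_7ed153_lc.DecipheringDelayHierarchy

open Pool.Agent.H643R2.SH Pool.Agent.H643R2.EX

theorem result (A : Type) [Finite A] [Nontrivial A] :
    (∀ L : Language A, L.IsRegular → ∃ E : GRE A, DStars E ∧ E.lang = L) ∧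
    ∀ h : ℕ, ∃ L : Language A, L.IsRegular ∧
      (∃ E : GRE A, DStars E ∧ E.height = h ∧ E.lang = L) ∧
      ∀ E : GRE A, DStars E → E.lang = L → h ≤ E.height := by
  obtain ⟨a, b, hab⟩ := exists_pair_ne A
  have hi : Function.Injective (![a, b] : Fin 2 → A) := by
    intro x y hxy
    fin_cases x <;> fin_cases y
    · rfl
    · exact absurd hxy hab
    · exact absurd hxy.symm hab
    · rfl
  exact ⟨fun L hL => exists_expr L hL, fun h => exactA hi h⟩

end Pool.Agent.Results.MP_7ed153_lc.DecipheringDelayHierarchy
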