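import Pool.Agent.H815R3.GSH.Nilp
import Pool.Agent.H815R3.GSH.Solv
import Pool.Agent.H815R3.GSH.Trans
import Pool.Agent.H815R3.GSH.Prod
import Pool.Agent.TH733.GSH.Met2
import Pool.Agent.TH733.GSH.S3d
import Pool.Agent.TH733.GSH.Cyc
import Pool.Agent.H551.GSH.Bridge

/-!
Upper bounds for the generalised star height of languages recognised by groups from several
classes, their subdirect products, and aperiodic extensions of these.
-/

set_option autoImplicit false

namespace Pool.Agent.Results.MP_7ed153_lc.GroupHeightBounds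

open Pool.Agent.H643R2.SH
open scoped commutatorElement

/-- `Low j g`: the finite group `H` together with the images `g a` of the letters is of one of the
following types.
* `H` is nilpotent of class at most `2 ^ (j + 2) - 1`;
* `H` has a normal subgroup `D` of derived length at most `j` such that `H / D` is metabelian and
  nilpotent of class at most four;
* `H` has a normal subgroup `N` of derived length at most `j + 1` such that `H / N` is an
  elementary abelian `p`-group for a prime `p`;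
* `H` has a normal subgroup `N` of derived length at most `j + 1` such that modulo `N` all letters
  are mapped to `1`, `τ` or `τ⁻¹` for one element `τ`;
* `H` has a normal subgroup `N` of derived length at most `j + 1` such that `H / N` acts
  faithfully on three points and either some point is fixed by no letter, or there are two points
  such that every letter acts trivially or moves both of them. -/
def Low {A H : Type} [Group H] (j : ℕ) (g : A → H) : Prop :=
  (⊤ : Subgroup H).lowerCentralSeries (2 ^ (j + 2) - 1) = ⊥ ∨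
  (∃ D : Subgroup H, D.Normal ∧ derivedSeries D j = ⊥ ∧ derivedSeries H 2 ≤ D ∧
    (⊤ : Subgroup H).lowerCentralSeries 4 ≤ D) ∨
  (∃ N : Subgroup H, N.Normal ∧ derivedSeries N (j + 1) = ⊥ ∧
    ∃ p : ℕ, p.Prime ∧ (∀ x y : H, x * y * x⁻¹ * y⁻¹ ∈ N) ∧ ∀ x : H, x ^ p ∈ N) ∨
  (∃ (N : Subgroup H) (_ : N.Normal), derivedSeries N (j + 1) = ⊥ ∧
    ∃ τ : H ⧸ N, ∀ a, ((g a : H) : H ⧸ N) = 1 ∨ ((g a : H) : H ⧸ N) = τ ∨
      ((g a : H) : H ⧸ N) = τ⁻¹) ∨
  (∃ (N : Subgroup H) (_ : N.Normal), derivedSeries N (j + 1) = ⊥ ∧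
    ∃ ψ : H ⧸ N →* Equiv.Perm (Fin 3), Function.Injective ψ ∧
      ((∃ b, ∀ a, ψ ((g a : H) : H ⧸ N) b ≠ b) ∨
        ∃ b b', b ≠ b' ∧ ∀ a, ψ ((g a : H) : H ⧸ N) = 1 ∨
          (ψ ((g a : H) : H ⧸ N) b ≠ b ∧ ψ ((g a : H) : H ⧸ N) b' ≠ b')))

theorem Low.hs {A H : Type} [Finite A] [Group H] [Finite H] {j : ℕ} {g : A → H} (h : Low j g)
    (S : Set H) : Pool.Agent.H936R2.SH.HS (j + 1) {w : List A | (w.map g).prod ∈ S} := by
  rcases h with h | ⟨D, hD, h1, h2, h3⟩ | ⟨N, hN, h1, p, hp, h2, h3⟩ | ⟨N, hN, h1, τ, hτ⟩ |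
    ⟨N, hN, h1, ψ, hψ, hA⟩
  · exact Pool.Agent.H815R3.GSH.nilp j H h g S
  · exact Pool.Agent.TH733.GSH.solv4 j H D h1 h2 h3 g S
  · have : Fact p.Prime := ⟨hp⟩
    exact Pool.Agent.H815R3.GSH.solv p j H N h1 h2 h3 g S
  · exact Pool.Agent.TH733.GSH.solv_cyc j H N h1 g τ hτ S
  · exact Pool.Agent.TH733.GSH.S3.solv_S3 j H N h1 g ψ hψ hA S

theorem result {A K G : Type} [Finite A] [Monoid K] [Finite K] [Group G] [Finite G]
    (f : A → K) (θ : K →* G) (hap : ∀ k : K, θ k = 1 → ∃ n : ℕ, k ^ (n + 1) = k ^ n)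
    {ι : Type} [Finite ι] {H : ι → Type} [∀ i, Group (H i)] [∀ i, Finite (H i)]
    (φ : ∀ i, G →* H i) (hφ : ∀ g : G, (∀ i, φ i g = 1) → g = 1) (j : ℕ)
    (hlow : ∀ i, Low j fun a => φ i (θ (f a))) (T : Set K) :
    ∃ E : GRE A, E.height ≤ j + 1 ∧ E.lang = {w : List A | (w.map f).prod ∈ T} := by
  refine Pool.Agent.H551.GSH.heightLE_of_HS (Pool.Agent.H815R3.GSH.transfer θ f hap ?_ T)
  intro S
  have hinj : Function.Injective (fun (g : G) (i : ι) => φ i g) := by
    intro x y hxy
    have h1 : x * y⁻¹ = 1 := by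
      apply hφ
      intro i
      have h2 : φ i x = φ i y := congrFun hxy i
      rw [map_mul, map_inv, h2, mul_inv_cancel]
    exact mul_inv_eq_one.1 h1
  have key : ∀ (w : List A), (w.map fun a => fun i => φ i (θ (f a))).prod =
      fun i => φ i ((w.map fun a => θ (f a)).prod) := by
    intro w
    induction w with
    | nil => funext i; simp
    | cons a w ih =>
      rw [List.map_cons, List.prod_cons, ih, List.map_cons, List.prod_cons]
      funext i
      simp
  have h := Pool.Agent.H815R3.GSH.HS_pi (n := j + 1) (fun (a : A) (i : ι) => φ i (θ (f a)))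
    (fun i S => (hlow i).hs S) ((fun (g : G) (i : ι) => φ i g) '' S)
  convert h using 1
  apply Set.ext
  intro w
  change (w.map fun a => θ (f a)).prod ∈ S ↔
    (w.map fun a => fun i => φ i (θ (f a))).prod ∈ (fun (g : G) (i : ι) => φ i g) '' S
  rw [key]
  constructor
  · intro h; exact ⟨_, h, rfl⟩
  · rintro ⟨g, hg, h2⟩
    rwa [← hinj h2]

end Pool.Agent.Results.MP_7ed153_lc.GroupHeightBounds
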