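import Pool.Agent.H668R2.SR.Prim
import Pool.Agent.H668R2.SR.Main
import Pool.Agent.H668R2.SR.Sys
import Pool.Agent.H668R2.SR.Pow
import Pool.Agent.H668R2.SR.Norm
import Pool.Agent.H668R2.SR.Block
import Pool.Agent.H668R2.SR.Compl
import Pool.Agent.H668R2.SR.Sound
import Pool.Agent.H668R2.SR.Coord
import Pool.Agent.H668R2.SR.Tab
import Pool.Agent.H551.GSH.Bridge

/-!
Every regular language, restricted to the words built from short gaps and long periodic runs, has
generalised star height at most one.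
-/

set_option autoImplicit false

namespace Pool.Agent.Results.MP_7ed153_lc.LongPeriodicRuns

open Pool.Agent.H643R2.SH

/-- Words `w₁ u₁^{n₁} w₂ u₂^{n₂} ⋯ w_k u_k^{n_k} w_{k+1}` with all gaps `w_i` of length at most `D`
and runs `u_i^{n_i}` with `1 ≤ |u_i| ≤ P` and `n_i ≥ N`. -/
inductive Runs {A : Type} (D P N : ℕ) : List A → Prop
  | gap (w : List A) : w.length ≤ D → Runs D P N w
  | run (w u v : List A) (n : ℕ) : w.length ≤ D → u ≠ [] → u.length ≤ P → N ≤ n →
      Runs D P N v → Runs D P N (w ++ ((List.replicate n u).flatten ++ v))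

theorem runs_iff {A : Type} (D P N : ℕ) (v : List A) :
    Runs D P N v ↔ Pool.Agent.H668R2.SR.W D P N v := by
  constructor
  · intro h
    induction h with
    | gap w h => exact .base w h
    | run w u v n h1 h2 h3 h4 _ ih => exact .step w u v n h1 h2 h3 h4 ih
  · intro h
    induction h with
    | base w h => exact .gap w h
    | step w u v n h1 h2 h3 h4 _ ih => exact .run w u v n h1 h2 h3 h4 ih

theorem result (A : Type) [Finite A] (L : Language A) (hL : L.IsRegular) (D P : ℕ) :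
    ∃ N₀ : ℕ, ∀ N, N₀ ≤ N →
      ∃ E : GRE A, E.height ≤ 1 ∧ E.lang = {v : List A | v ∈ L ∧ Runs D P N v} := by
  obtain ⟨σ, hσ, M, rfl⟩ := hL
  obtain ⟨N₀, h⟩ := Pool.Agent.H668R2.SR.pFinal
    (Pool.Agent.H668R2.SR.pSys (Pool.Agent.H668R2.SR.pCoord Pool.Agent.H668R2.SR.pTab))
    Pool.Agent.H668R2.SR.pPow
    (Pool.Agent.H668R2.SR.pMain Pool.Agent.H668R2.SR.pSound Pool.Agent.H668R2.SR.pCompl)
    Pool.Agent.H668R2.SR.pNorm Pool.Agent.H668R2.SR.pBlock A σ M.step M.start M.accept D P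
  refine ⟨N₀, fun N hN => ?_⟩
  have h1 := Pool.Agent.H551.GSH.heightLE_of_HS (h N hN)
  obtain ⟨E, hE, hEL⟩ := h1
  refine ⟨E, hE, ?_⟩
  rw [hEL]
  apply Set.ext
  intro v
  change (v.foldl M.step M.start ∈ M.accept ∧ _) ↔ (v ∈ M.accepts ∧ _)
  rw [runs_iff]
  rfl

end Pool.Agent.Results.MP_7ed153_lc.LongPeriodicRuns
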